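import Mathlib
import Pool.Agent.Run7.h276.CoreL
import Pool.Agent.Run7.h276.MdimL

/-!
# A system of mean dimension zero all of whose nontrivial factors have infinite entropy

The definitions follow the problem file.
-/

set_option autoImplicit false
set_option linter.unusedVariables false
set_option linter.deprecated false
open Filter Topology
open scoped ENNReal

namespace Pool.Agent.Results.MP_2d33ec_an.NoFiniteEntropyFactor

/-- `α` is a finite open cover of `X` -/
def OpenCover {X : Type} [TopologicalSpace X] (α : Set (Set X)) : Prop :=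
  α.Finite ∧ (∀ U ∈ α, IsOpen U) ∧ ⋃₀ α = Set.univ

/-- the join `α ∨ T⁻¹ α ∨ ... ∨ T⁻⁽ⁿ⁻¹⁾ α` -/
def join {X : Type} (T : X → X) (α : Set (Set X)) (n : ℕ) : Set (Set X) :=
  (fun c : Fin n → Set X => ⋂ i : Fin n, (T^[i]) ⁻¹' (c i)) '' {c | ∀ i, c i ∈ α}

/-- `β` refines `α` -/
def Refines {X : Type} (β α : Set (Set X)) : Prop := ∀ V ∈ β, ∃ U ∈ α, V ⊆ U

/-- `ord β`, the maximum over `x` of the number of members of `β` containing `x`, minus one -/
noncomputable def ord {X : Type} (β : Set (Set X)) : ℕ := (⨆ x : X, {U ∈ β | x ∈ U}.ncard) - 1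

/-- `D(α)`, the minimum of `ord β` over the finite open covers `β` refining `α` -/
noncomputable def D {X : Type} [TopologicalSpace X] (α : Set (Set X)) : ℕ :=
  sInf {d | ∃ β : Set (Set X), OpenCover β ∧ Refines β α ∧ d = ord β}

/-- mean dimension -/
noncomputable def mdim {X : Type} [TopologicalSpace X] (T : X → X) : ℝ≥0∞ :=
  ⨆ α : {α : Set (Set X) // OpenCover α},
    limsup (fun n : ℕ => (D (join T α.1 n) : ℝ≥0∞) / (n : ℝ≥0∞)) atTop

/-- `N(α)`, the least cardinality of a subfamily of `α` which covers `X` -/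
noncomputable def covNum {X : Type} (α : Set (Set X)) : ℕ :=
  sInf {k | ∃ β : Set (Set X), β ⊆ α ∧ β.Finite ∧ ⋃₀ β = Set.univ ∧ k = β.ncard}

/-- topological entropy -/
noncomputable def htop {X : Type} [TopologicalSpace X] (T : X → X) : ℝ≥0∞ :=
  ⨆ α : {α : Set (Set X) // OpenCover α},
    limsup (fun n : ℕ => ENNReal.ofReal (Real.log (covNum (join T α.1 n) : ℝ) / (n : ℝ))) atTop

/-- `(Y, S)` is a factor of `(X, T)` -/
def Factor {X Y : Type} [TopologicalSpace X] [TopologicalSpace Y] (T : X → X) (S : Y → Y) :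
    Prop :=
  ∃ π : X → Y, Continuous π ∧ Function.Surjective π ∧ π ∘ T = S ∘ π

/-- (a): each nontrivial factor has infinite topological entropy -/
def CondA {X : Type} [TopologicalSpace X] (T : X → X) : Prop :=
  ∀ (Y : Type) [TopologicalSpace Y] [CompactSpace Y] [TopologicalSpace.MetrizableSpace Y]
    (S : Y ≃ₜ Y), Factor T S → Nontrivial Y → htop S = ⊤

/-- (b): each nontrivial factor has positive mean dimension -/
def CondB {X : Type} [TopologicalSpace X] (T : X → X) : Prop :=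
  ∀ (Y : Type) [TopologicalSpace Y] [CompactSpace Y] [TopologicalSpace.MetrizableSpace Y]
    (S : Y ≃ₜ Y), Factor T S → Nontrivial Y → 0 < mdim S

open Run7.h276.SysL Run7.h276.CoreL

theorem continuous_tX (i : ℤ) : Continuous (tX i) := by
  apply Continuous.subtype_mk
  exact (continuous_sft i).comp continuous_subtype_val

theorem tX_tX (i j : ℤ) (x : X) : tX i (tX j x) = tX (i + j) x := Subtype.ext (sft_sft i j x.1)

theorem tX_zero (x : X) : tX 0 x = x := Subtype.ext (sft_zero x.1)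

/-- the shift homeomorphism -/
def T : X ≃ₜ X where
  toFun := tX 1
  invFun := tX (-1)
  left_inv x := by rw [tX_tX]; exact tX_zero x
  right_inv x := by rw [tX_tX]; exact tX_zero x
  continuous_toFun := continuous_tX 1
  continuous_invFun := continuous_tX (-1)

theorem T_apply (x : X) : T x = tX 1 x := rfl

theorem T_iterate (i : ℕ) (x : X) : (⇑T)^[i] x = tX i x := by
  induction i with
  | zero => rw [Function.iterate_zero, id, Nat.cast_zero, tX_zero]
  | succ i ih =>
    rw [Function.iterate_succ_apply', ih, T_apply, tX_tX]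
    congr 1
    push_cast
    ring

theorem mdim_T : mdim (⇑T) = 0 := by
  classical
  unfold mdim
  rw [ENNReal.iSup_eq_zero]
  rintro ⟨α, hα1, hα2, hα3⟩
  rw [← nonpos_iff_eq_zero]
  apply le_of_forall_pos_le_add
  intro τ hτ
  rw [zero_add]
  obtain ⟨r, hr0, hrτ⟩ : ∃ r : ℝ, 0 < r ∧ ENNReal.ofReal r ≤ τ := by
    by_cases hT : τ = ⊤
    · exact ⟨1, one_pos, by rw [hT]; exact le_top⟩
    · exact ⟨τ.toReal, ENNReal.toReal_pos hτ.ne' hT, by rw [ENNReal.ofReal_toReal hT]⟩
  refine le_trans ?_ hrτ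
  have hcov : ∀ x : X, ∃ U ∈ hα1.toFinset, x ∈ U := by
    intro x
    have : x ∈ ⋃₀ α := by rw [hα3]; trivial
    obtain ⟨U, hU, hxU⟩ := this
    exact ⟨U, by simpa using hU, hxU⟩
  refine limsup_le_of_le (by isBoundedDefault) ?_
  filter_upwards [Run7.h276.MdimL.mdim0 hα1.toFinset (fun U hU => hα2 U (by simpa using hU)) hcov
    r hr0, eventually_ge_atTop 1] with n hn hn1
  obtain ⟨γ, h1, h2, h3, h4⟩ := hn
  have hn0 : (0 : ℝ) < n := by exact_mod_cast hn1
  have hcard : ∀ x : X, {U ∈ (γ : Set (Set X)) | x ∈ U}.ncard ≤ ⌊r * n⌋₊ + 1 := by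
    intro x
    have h5 := h4 x (γ.filter fun V => x ∈ V) (Finset.filter_subset _ _)
      (fun V hV => (Finset.mem_filter.1 hV).2)
    have h6 : {U ∈ (γ : Set (Set X)) | x ∈ U} =
        ((γ.filter fun V => x ∈ V : Finset (Set X)) : Set (Set X)) := by
      ext V; simp
    rw [h6, Set.ncard_coe_finset]
    rw [pow_one] at h5
    have h7 : (((γ.filter fun V => x ∈ V).card - 1 : ℕ) : ℝ) ≤ r * n := by
      rcases Nat.eq_zero_or_pos (γ.filter fun V => x ∈ V).card with h0 | h0
      · rw [h0]; simp; positivity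
      · rw [Nat.cast_sub h0]; push_cast; linarith
    have h8 := Nat.le_floor h7
    omega
  have hne : Nonempty X := ⟨⟨0, subset_closure zero_mem_DD⟩⟩
  have hord : ord (γ : Set (Set X)) ≤ ⌊r * n⌋₊ := by
    unfold ord
    have := ciSup_le hcard
    omega
  have hD : D (join (⇑T) α n) ≤ ⌊r * n⌋₊ := by
    unfold D
    refine (Nat.sInf_le ?_).trans hord
    refine ⟨(γ : Set (Set X)), ⟨γ.finite_toSet, h1, ?_⟩, ?_, rfl⟩
    · rw [Set.eq_univ_iff_forall]
      intro x
      obtain ⟨V, hV, hxV⟩ := h2 x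
      exact ⟨V, hV, hxV⟩
    · intro V hV
      obtain ⟨c, hc1, hc2⟩ := h3 V hV
      have hg : ∀ i : Fin n, ∀ l : Fin 1, 0 ≤ (fun _ : Fin 1 => ((i : ℕ) : ℤ)) l ∧
          (fun _ : Fin 1 => ((i : ℕ) : ℤ)) l < (n : ℤ) := by
        intro i l
        have := i.isLt
        simp only
        omega
      refine ⟨⋂ i : Fin n, ((⇑T)^[i]) ⁻¹' (c fun _ => ((i : ℕ) : ℤ)),
        ⟨fun i => c fun _ => ((i : ℕ) : ℤ), fun i => ?_, rfl⟩, ?_⟩
      · simpa using hc1 (fun _ => ((i : ℕ) : ℤ)) (hg i)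
      · intro x hx
        rw [Set.mem_iInter]
        intro i
        rw [Set.mem_preimage, T_iterate]
        exact hc2 x hx (fun _ => ((i : ℕ) : ℤ)) (hg i)
  rw [ENNReal.div_le_iff (by exact_mod_cast hn0.ne') (by simp)]
  have hD' : (D (join (⇑T) α n) : ℝ≥0∞) ≤ (⌊r * n⌋₊ : ℝ≥0∞) := by exact_mod_cast hD
  refine hD'.trans ?_
  rw [← ENNReal.ofReal_natCast n, ← ENNReal.ofReal_mul hr0.le, ← ENNReal.ofReal_natCast]
  exact ENNReal.ofReal_le_ofReal (Nat.floor_le (by positivity))

theorem join_finite {Y : Type} (S : Y → Y) {α : Set (Set Y)} (h : α.Finite) (n : ℕ) :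
    (join S α n).Finite := by
  unfold join
  apply Set.Finite.image
  have : {c : Fin n → Set Y | ∀ i, c i ∈ α} = Set.pi Set.univ fun _ => α := by
    ext c; simp
  rw [this]
  exact Set.Finite.pi fun _ => h

theorem join_cover {Y : Type} (S : Y → Y) {α : Set (Set Y)} (h : ⋃₀ α = Set.univ) (n : ℕ) :
    ⋃₀ (join S α n) = Set.univ := by
  rw [Set.eq_univ_iff_forall]
  intro y
  have h1 : ∀ i : Fin n, ∃ U ∈ α, S^[i] y ∈ U := by
    intro i
    have : S^[i] y ∈ ⋃₀ α := by rw [h]; trivial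
    exact this
  choose c hc1 hc2 using h1
  exact ⟨_, ⟨c, hc1, rfl⟩, Set.mem_iInter.2 fun i => hc2 i⟩

theorem good_of_htop {Y : Type} [TopologicalSpace Y] [CompactSpace Y] (S : Y ≃ₜ Y) {π : X → Y}
    (hπ : π ∘ T = S ∘ π) {C : ℝ} (hC : htop S < ENNReal.ofReal C) {f : Y → ℝ}
    (hf : Continuous f) : Good (fun x => f (π x)) C := by
  classical
  intro η hη
  let W : ℤ → Set Y := fun q => {y | |f y - q * (η / 2)| < η / 2}
  have hWo : ∀ q, IsOpen (W q) := fun q =>
    isOpen_lt ((hf.sub continuous_const).abs) continuous_const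
  have hWc : ∀ y : Y, ∃ q, y ∈ W q := by
    intro y
    refine ⟨round (f y / (η / 2)), ?_⟩
    have h1 := abs_sub_round (f y / (η / 2))
    simp only [W, Set.mem_setOf_eq]
    have e : f y - (round (f y / (η / 2)) : ℝ) * (η / 2) =
        (f y / (η / 2) - round (f y / (η / 2))) * (η / 2) := by
      field_simp
    rw [e, abs_mul, abs_of_pos (half_pos hη)]
    nlinarith [half_pos hη]
  obtain ⟨t, ht⟩ := isCompact_univ.elim_finite_subcover W hWo (fun y _ => by
    obtain ⟨q, hq⟩ := hWc y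
    exact Set.mem_iUnion.2 ⟨q, hq⟩)
  set α : Set (Set Y) := W '' (t : Set ℤ) with hα
  have hαc : OpenCover α := by
    refine ⟨t.finite_toSet.image W, ?_, ?_⟩
    · rintro U ⟨q, _, rfl⟩
      exact hWo q
    · rw [Set.eq_univ_iff_forall]
      intro y
      obtain ⟨q, hq, hq'⟩ := Set.mem_iUnion₂.1 (ht (Set.mem_univ y))
      exact ⟨W q, ⟨q, hq, rfl⟩, hq'⟩
  have h1 : limsup (fun n : ℕ => ENNReal.ofReal (Real.log (covNum (join S α n) : ℝ) / (n : ℝ)))
      atTop < ENNReal.ofReal C := by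
    refine lt_of_le_of_lt ?_ hC
    unfold htop
    exact le_iSup (fun α : {α : Set (Set Y) // OpenCover α} =>
      limsup (fun n : ℕ => ENNReal.ofReal (Real.log (covNum (join S α.1 n) : ℝ) / (n : ℝ)))
        atTop) ⟨α, hαc⟩
  filter_upwards [Filter.eventually_lt_of_limsup_lt h1, eventually_ge_atTop 1] with n hn hn1
  have hn0 : (0 : ℝ) < n := by exact_mod_cast hn1
  have hne : {k | ∃ β : Set (Set Y), β ⊆ join S α n ∧ β.Finite ∧ ⋃₀ β = Set.univ ∧
      k = β.ncard}.Nonempty :=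
    ⟨_, join S α n, subset_rfl, join_finite S hαc.1 n, join_cover S hαc.2.2 n, rfl⟩
  obtain ⟨β, hβ1, hβ2, hβ3, hβ4⟩ := Nat.sInf_mem hne
  have hlog : Real.log (covNum (join S α n) : ℝ) / n < C := by
    by_contra hcon
    push Not at hcon
    exact absurd hn (not_lt.2 (ENNReal.ofReal_le_ofReal hcon))
  have hN : (covNum (join S α n) : ℝ) ≤ Real.exp (C * n) := by
    rcases Nat.eq_zero_or_pos (covNum (join S α n)) with h0 | h0
    · rw [h0]; simp; positivity
    · have h0' : (0 : ℝ) < covNum (join S α n) := by exact_mod_cast h0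
      rw [← Real.exp_log h0']
      apply Real.exp_le_exp.2
      rw [div_lt_iff₀ hn0] at hlog
      exact hlog.le
  have hβc : hβ2.toFinset.card = covNum (join S α n) := by
    rw [← Set.ncard_eq_toFinset_card β hβ2]
    exact hβ4.symm
  have hch : ∀ y : Y, ∃ V ∈ hβ2.toFinset, y ∈ V := by
    intro y
    have : y ∈ ⋃₀ β := by rw [hβ3]; trivial
    obtain ⟨V, hV, hyV⟩ := this
    exact ⟨V, by simpa using hV, hyV⟩
  choose V hV hyV using hch
  refine ⟨hβ2.toFinset.card, by rw [hβc]; exact hN,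
    fun x => hβ2.toFinset.equivFin ⟨V (π x), hV (π x)⟩, ?_⟩
  intro x x' hxx i hi
  have he : V (π x) = V (π x') := congrArg Subtype.val (hβ2.toFinset.equivFin.injective hxx)
  have hmem : V (π x) ∈ join S α n := hβ1 (by simpa using hV (π x))
  obtain ⟨c, hc1, hc2⟩ := hmem
  have hx : π x ∈ ⋂ i : Fin n, ((⇑S)^[i]) ⁻¹' (c i) := by
    have := hyV (π x)
    rw [← hc2] at this
    exact this
  have hx' : π x' ∈ ⋂ i : Fin n, ((⇑S)^[i]) ⁻¹' (c i) := by
    have := hyV (π x')
    rw [← he, ← hc2] at this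
    exact this
  have hsemi : Function.Semiconj π T S := fun x => congrFun hπ x
  have hit : ∀ x : X, (⇑S)^[i] (π x) = π (tX i x) := by
    intro x
    rw [← T_iterate]
    exact ((hsemi.iterate_right i) x).symm
  have h2 := Set.mem_iInter.1 hx ⟨i, hi⟩
  have h3 := Set.mem_iInter.1 hx' ⟨i, hi⟩
  rw [Set.mem_preimage] at h2 h3
  simp only [hit] at h2 h3
  obtain ⟨q, _, hq⟩ := hc1 ⟨i, hi⟩
  rw [← hq] at h2 h3
  simp only [W, Set.mem_setOf_eq] at h2 h3
  have h4 := abs_lt.1 h2
  have h5 := abs_lt.1 h3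
  rw [abs_le]
  constructor <;> linarith [h4.1, h4.2, h5.1, h5.2]

theorem condA_T : CondA (⇑T) := by
  intro Y _ _ _ S hfac hnt
  obtain ⟨π, hπc, hπs, hπ⟩ := hfac
  by_contra hne
  obtain ⟨C, hC⟩ : ∃ C : ℝ, htop S < ENNReal.ofReal C := by
    refine ⟨(htop S).toReal + 1, ?_⟩
    rw [← ENNReal.ofReal_toReal hne]
    rw [ENNReal.toReal_ofReal ENNReal.toReal_nonneg]
    exact (ENNReal.ofReal_lt_ofReal_iff (by positivity)).2 (by linarith)
  obtain ⟨y, y', hyy⟩ := hnt.exists_pair_ne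
  let _ := TopologicalSpace.metrizableSpaceMetric Y
  have hf : Continuous fun z : Y => dist z y := by fun_prop
  have hgood := good_of_htop S hπ hC hf
  have hcont : Continuous fun x : X => dist (π x) y := hf.comp hπc
  obtain ⟨x, rfl⟩ := hπs y
  obtain ⟨x', rfl⟩ := hπs y'
  have h1 := const_of_good hcont hgood x
  have h2 := const_of_good hcont hgood x'
  rw [← h1, dist_self] at h2
  exact hyy (dist_eq_zero.1 h2).symm

theorem result : ∃ (X : Type) (_ : TopologicalSpace X) (_ : CompactSpace X)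
    (_ : TopologicalSpace.MetrizableSpace X) (T : X ≃ₜ X),
    Nontrivial X ∧ mdim (⇑T) = 0 ∧ CondA (⇑T) ∧ ¬ CondB (⇑T) := by
  have hnt : Nontrivial X := by
    refine ⟨⟨⟨0, subset_closure zero_mem_DD⟩, ⟨pt 1, subset_closure pt_mem_DD⟩, ?_⟩⟩
    intro h
    exact pt_ne (congrArg Subtype.val h).symm
  refine ⟨X, inferInstance, inferInstance, inferInstance, T, hnt, mdim_T, condA_T, ?_⟩
  intro hB
  have h := hB X T ⟨id, continuous_id, Function.surjective_id, rfl⟩ hnt
  rw [mdim_T] at h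
  exact lt_irrefl _ h

end Pool.Agent.Results.MP_2d33ec_an.NoFiniteEntropyFactor
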